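import Pool.Agent.H28.GR.Defs

/-!
MP_684e05_nt, module VR: the three term recurrence.
-/

set_option autoImplicit false

open Finset Pool.Agent.H23.GW Pool.Agent.H23.GC Pool.Agent.H23.GF Pool.Agent.H28.GR
open scoped Classical

namespace Pool.Agent.H75.GR.VR

theorem V_z (m : ℕ) : V m 0 = 1 := by
  cases m <;> simp [V]

theorem V_0 (n : ℕ) : V 0 (n + 1) = 0 := by
  simp [V]

theorem V_s (m n : ℕ) : V (m + 1) (n + 1) = V m (n + 1) + V m n + V (m + 1) n := by
  rw [V]

theorem V_1 (m : ℕ) : V m 1 = 2 * m := by
  induction m with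
  | zero => exact V_0 0
  | succ m ih =>
    have := V_s m 0
    rw [zero_add] at this
    rw [this, ih, V_z, V_z]
    ring

theorem vr : T_VR := by
  intro m
  induction m with
  | zero =>
    intro n
    rw [V_0 (n + 1)]
    cases n with
    | zero => simp
    | succ k => rw [V_0 k]; simp
  | succ m ih =>
    intro n
    induction n with
    | zero =>
      have h1 := V_s m 1
      have h2 := V_s m 0
      have h3 := ih 0
      have h4 := V_1 m
      have h5 := V_z m
      have h6 := V_z (m + 1)
      simp only [zero_add] at h1 h2 h3 ⊢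
      rw [h1, h2, h5, h6, h4]
      rw [h4] at h3
      have : V m (1 + 1) = 2 * m * m := by
        have : 2 * V m 2 = 2 * (2 * m * m) := by
          rw [h3]; ring
        exact Nat.eq_of_mul_eq_mul_left (by norm_num) this
      rw [this]
      ring
    | succ k ihk =>
      have h1 := V_s m (k + 2)
      have h2 := V_s m (k + 1)
      have h3 := V_s m k
      have i1 := ih (k + 1)
      have i2 := ih k
      zify at h1 h2 h3 i1 i2 ihk ⊢
      have e1 : k + 1 + 2 = k + 2 + 1 := by ring
      have e2 : k + 1 + 1 = k + 2 := by ring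
      rw [e1, e2] at *
      linear_combination ((k : ℤ) + 3) * h1 + i1 + i2 + ihk - (2 * (m + 1) - 1 : ℤ) * h2 - k * h3

end Pool.Agent.H75.GR.VR
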